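import Pool.Agent.Helper830_CND.Base

/-! There are CND graphs of arbitrarily large girth. -/

namespace Pool.Agent.Results.MP_03af38_co.CNDLargeGirth

open SimpleGraph

/-- A CND graph: it is connected, no path contains all vertices (nontraceable), and every vertex
`v` is an endvertex of a longest path of the graph. -/
structure IsCND {W : Type} (G : SimpleGraph W) : Prop where
  connected : G.Connected
  nontraceable : ¬ ∃ (a b : W) (p : G.Walk a b), p.IsPath ∧ ∀ v, v ∈ p.support
  detour : ∀ v : W, ∃ (w : W) (p : G.Walk v w), p.IsPath ∧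
    ∀ (a b : W) (q : G.Walk a b), q.IsPath → q.length ≤ p.length

/-- For every `g` there is a finite CND graph which contains a cycle and has girth at least `g`. -/
theorem result (g : ℕ) :
    ∃ (W : Type) (_ : Fintype W) (G : SimpleGraph W), IsCND G ∧ ¬ G.IsAcyclic ∧ g ≤ G.girth := by
  obtain ⟨t, ht⟩ : ∃ t, t = 8 * (g + 1) + 3 := ⟨_, rfl⟩
  have hne : NeZero t := ⟨by omega⟩
  have hgood := H830CND.base_good (Nat.succ_pos g) ht
  have h0 : H830CND.Stage t 3 1 :=
    ⟨Bool × ZMod t, ZMod t, inferInstance, inferInstance, H830CND.base t, hgood, fun L c hc => hc.1⟩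
  obtain ⟨M, hM, V, E, _, _, D, hD, hγ⟩ := h0.iter le_rfl (by omega) (g + 1)
  have hM2 : 2 ≤ M := by
    calc 2 = 2 ^ 1 := rfl
      _ ≤ 2 ^ (g + 1) := Nat.pow_le_pow_right (by norm_num) (by omega)
      _ = 2 ^ (g + 1) * 1 := by ring
      _ ≤ M := hM
  have hE : 0 < Fintype.card E := by
    rw [hD.cardE]
    exact Nat.mul_pos (by omega) (by omega)
  obtain ⟨x⟩ := Fintype.card_pos_iff.1 hE
  obtain ⟨c, hc, -⟩ := hD.cfg x
  have hcnd := hD.isCND hM2
  refine ⟨V ⊕ E, inferInstance, D.graph, ⟨hcnd.connected, hcnd.nontraceable, hcnd.detour⟩,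
    hc.not_acyclic, ?_⟩
  apply H830CND.girth_ge _ hc
  intro L c hc
  exact le_trans (by omega) (hγ L c hc)

end Pool.Agent.Results.MP_03af38_co.CNDLargeGirth
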